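import Mathlib
import Pool.Agent.H925R3.DC.Stubs

set_option autoImplicit false

namespace Pool.Agent.H477R5.DC

open Pool.Agent.H925R3.DC

lemma ns_iff (p : ℕ) [Fact p.Prime] (a b : ℤ) (hp : 2 < p)
    (hd : ¬ (p : ℤ) ∣ 4 * a ^ 3 + 27 * b ^ 2) (x y : ZMod p) :
    (crv (ZMod p) (a : ZMod p) (b : ZMod p)).Nonsingular x y ↔
      y ^ 2 = x ^ 3 + a * x + b := by
  rw [WeierstrassCurve.Affine.nonsingular_iff', WeierstrassCurve.Affine.equation_iff]
  simp only [crv, zero_mul, mul_zero, add_zero, zero_sub, ne_eq, neg_eq_zero]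
  constructor
  · rintro ⟨h, _⟩
    exact h
  · intro h
    refine ⟨h, ?_⟩
    by_contra hc
    push Not at hc
    obtain ⟨h1, h2⟩ := hc
    apply hd
    rw [← ZMod.intCast_zmod_eq_zero_iff_dvd]
    push_cast
    have h20 : (2 : ZMod p) ≠ 0 := by
      intro h3
      have h4 : ((2 : ℕ) : ZMod p) = 0 := by exact_mod_cast h3
      rw [ZMod.natCast_eq_zero_iff] at h4
      exact absurd (Nat.le_of_dvd (by norm_num) h4) (by omega)
    have hy : y = 0 := by
      rcases mul_eq_zero.mp h2 with h3 | h3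
      · exact absurd h3 h20
      · exact h3
    subst hy
    have hA : (a : ZMod p) = -(3 * x ^ 2) := by linear_combination h1
    have hB : (b : ZMod p) = 2 * x ^ 3 := by
      rw [hA] at h
      linear_combination -h
    rw [hA, hB]
    ring

theorem exp : EXP := by
  intro p hpf a b hp hd hcard Q
  classical
  have hfin : Finite (WithZero {xy : ZMod p × ZMod p //
      (crv (ZMod p) (a : ZMod p) (b : ZMod p)).Nonsingular xy.1 xy.2}) :=
    inferInstanceAs (Finite (Option {xy : ZMod p × ZMod p //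
      (crv (ZMod p) (a : ZMod p) (b : ZMod p)).Nonsingular xy.1 xy.2}))
  have hfin2 : Finite (crv (ZMod p) (a : ZMod p) (b : ZMod p)).Point :=
    Finite.of_equiv _ (WeierstrassCurve.Affine.nonsingularPointEquiv
      (crv (ZMod p) (a : ZMod p) (b : ZMod p))).symm
  have h1 : Nat.card (crv (ZMod p) (a : ZMod p) (b : ZMod p)).Point = p + 1 := by
    rw [Nat.card_congr (WeierstrassCurve.Affine.nonsingularPointEquiv
      (crv (ZMod p) (a : ZMod p) (b : ZMod p)))]
    have h2 : Nat.card (WithZero {xy : ZMod p × ZMod p //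
        (crv (ZMod p) (a : ZMod p) (b : ZMod p)).Nonsingular xy.1 xy.2}) =
        Nat.card {xy : ZMod p × ZMod p //
        (crv (ZMod p) (a : ZMod p) (b : ZMod p)).Nonsingular xy.1 xy.2} + 1 :=
      Finite.card_option
    rw [h2]
    congr 1
    refine Eq.trans ?_ hcard
    apply Nat.card_congr
    exact Equiv.subtypeEquivRight (fun z => ns_iff p a b hp hd z.1 z.2)
  have h3 : ((p : ℤ) + 1) • Q = (p + 1) • Q := by
    rw [← natCast_zsmul]
    push_cast
    rfl
  rw [h3, ← h1]
  exact card_nsmul_eq_zero'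

end Pool.Agent.H477R5.DC
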